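import Pool.Agent.H43.RM.Gau

/-!
# Moments of local averages of powers of ζ on the critical line

Let `δ(T) → 0` with `δ(T) log T → ∞`, let `m ≥ 1` be an integer, `0 < β ≤ 4` real and let `K` be a kernel which
is continuous in the closed strip `-1 ≤ Im z ≤ 0`, holomorphic in the open strip and `O((1 + |Re z|)^(-A))` there,
`A > 1 + 5m/8`, `A > m/β`. For the local averages over windows of length about `δ` on the critical line,

`M(t) = ∫ ζ(1/2 + i(t + δu))^m K(u) du`,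

`(1/T) ∫_0^T |M(t)|^(β/m) dt ~ a(β/2) 2^(-β²/4) E |∫ e^(m G(u)) K(u - i) du|^(β/m) δ^(-β²/4)`,

where `G` is the Gaussian process `G(u) = -(β/2) log (1 + iu/2) + ∑_{k ≥ 1} ξ_k p(u)^k / √k`,
`p(u) = (iu/2)/(1 + iu/2)`, with independent standard complex normal variables `ξ_k`. The constant is positive if
`∫ (1 + iu/2)^(-mβ/2) K(u - i) du ≠ 0`, for example for `K(z) = e^(-z²/2)`.

Proof. The line of integration is moved to `Im z = -1`, that is to `Re s = 1/2 + δ` (`strip_shift`). On bounded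
windows the functional form of the moments of ζ near the critical line applies (`lim_R`); the tails are estimated by
the means of the `β`-th powers of the local sizes of ζ over windows of length `δ` (`diff_mean`). Positivity is
the submean inequality in the Gaussian space (`lower`).
-/

set_option autoImplicit false

namespace Pool.Agent.Results.MP_973905_nt.LocalAverages

open Filter MeasureTheory Topology ProbabilityTheory

/-- The coefficient `s (s + 1) ⋯ (s + m - 1) / m!` of `x^m` in `(1 - x)^(-s)`. -/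
noncomputable def ds (s : ℝ) (m : ℕ) : ℝ := ∏ i ∈ Finset.range m, (s + i) / ((i : ℝ) + 1)

/-- The arithmetic factor `a(s) = ∏_p (1 - 1/p)^(s²) ∑_m ds(m)² p^(-m)`. -/
noncomputable def ak (s : ℝ) : ℝ :=
  ∏' p : Nat.Primes, ((1 - 1 / (p : ℝ)) ^ (s ^ 2) * ∑' m : ℕ, ds s m ^ 2 * (1 / (p : ℝ)) ^ m)

/-- The integrand `ζ(1/2 + i(t + zδ))^m K(z)`. -/
noncomputable def F (K : ℂ → ℂ) (m : ℕ) (δ t : ℝ) (z : ℂ) : ℂ :=
  riemannZeta (1 / 2 + (t + z * δ) * Complex.I) ^ m * K z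

/-- The local average `∫ ζ(1/2 + i(t + uδ))^m K(u) du` over the real line. -/
noncomputable def M (K : ℂ → ℂ) (m : ℕ) (δ t : ℝ) : ℂ := ∫ u : ℝ, F K m δ t u

/-- Kernels: continuous in `-1 ≤ Im z ≤ 0`, holomorphic in `-1 < Im z < 0`, and at most
`C (1 + |Re z|)^(-A)` in absolute value. -/
structure Kernel (K : ℂ → ℂ) (A C : ℝ) : Prop where
  cont : ContinuousOn K {z | z.im ∈ Set.Icc (-1 : ℝ) 0}
  diff : DifferentiableOn ℂ K {z | z.im ∈ Set.Ioo (-1 : ℝ) 0}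
  bound : ∀ z : ℂ, z.im ∈ Set.Icc (-1 : ℝ) 0 → ‖K z‖ ≤ C * (1 + |z.re|) ^ (-A)

/-- The Gaussian kernel `e^(-z²/2)`. -/
noncomputable def gauss (z : ℂ) : ℂ := Complex.exp (-(z ^ 2 / 2))

/-- The law of a sequence of independent standard normal vectors of `ℝ²`. -/
noncomputable def law : Measure (ℕ → ℝ × ℝ) :=
  Measure.infinitePi fun _ : ℕ => (gaussianReal 0 1).prod (gaussianReal 0 1)

/-- The standard complex normal variables `(x + iy)/√2`. -/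
noncomputable def xi (k : ℕ) (ω : ℕ → ℝ × ℝ) : ℂ :=
  (((ω k).1 : ℂ) + ((ω k).2 : ℂ) * Complex.I) / (√2 : ℝ)

/-- `p(u) = (iu/2)/(1 + iu/2)`. -/
noncomputable def p (u : ℝ) : ℂ := (Complex.I * (u : ℂ) / 2) / (1 + Complex.I * (u : ℂ) / 2)

/-- The terms of the random series. -/
noncomputable def term (ω : ℕ → ℝ × ℝ) (u : ℝ) (k : ℕ) : ℂ :=
  xi k ω * (p u ^ (k + 1) / (√((k : ℝ) + 1) : ℝ))

/-- The process `G(u) = -(β/2) log (1 + iu/2) + ∑_{k ≥ 1} ξ_k p(u)^k / √k`. -/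
noncomputable def G (β : ℝ) (ω : ℕ → ℝ × ℝ) (u : ℝ) : ℂ :=
  -(β / 2 : ℂ) * Complex.log (1 + Complex.I * (u : ℂ) / 2) + ∑' k, term ω u k

/-- The limit functional `∫ e^(m G(u)) K(u - i) du`. -/
noncomputable def J (K : ℂ → ℂ) (m : ℕ) (β : ℝ) (ω : ℕ → ℝ × ℝ) : ℂ :=
  ∫ u : ℝ, Complex.exp (G β ω u) ^ m * K ((u : ℂ) - Complex.I)

/-- Let `m ≥ 1` be an integer, `0 < β ≤ 4` real, `δ(T) → 0` and `δ(T) log T → ∞`. Then `a(β/2) > 0`, almost surely
the series of `G` converges everywhere, and: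

(1) for every kernel with `A > 1 + 5m/8` and `βA > m`: the integral `M(t)` converges for large `T` and all
`t`, `e^(m G(u)) K(u - i)` is almost surely integrable, `E |J|^(β/m)` is finite, positive if
`∫ (1 + iu/2)^(-mβ/2) K(u - i) du ≠ 0`, and
`δ^(β²/4) (1/T) ∫_0^T |M(t)|^(β/m) dt → a(β/2) 2^(-β²/4) E |J|^(β/m)`;

(2) all this applies to the Gaussian kernel, and for this kernel the limit is positive. -/
theorem result (m : ℕ) (hm : 1 ≤ m) (β : ℝ) (hβ : 0 < β) (hβ4 : β ≤ 4) (δ : ℝ → ℝ) (hδ : Tendsto δ atTop (𝓝 0))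
    (hδL : Tendsto (fun T : ℝ => δ T * Real.log T) atTop atTop) :
    0 < ak (β / 2) ∧
    (∀ᵐ ω ∂law, ∀ u, Summable (term ω u)) ∧
    (∀ (K : ℂ → ℂ) (A C : ℝ), Kernel K A C → 1 + 5 / 8 * (m : ℝ) < A → (m : ℝ) < β * A →
      (∀ᶠ T in atTop, ∀ t : ℝ, Integrable (fun u : ℝ => F K m (δ T) t u)) ∧
      (∀ᵐ ω ∂law, Integrable (fun u : ℝ => Complex.exp (G β ω u) ^ m * K ((u : ℂ) - Complex.I))) ∧
      Integrable (fun ω => ‖J K m β ω‖ ^ (β / m)) law ∧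
      ((∫ u : ℝ, Complex.exp (-(m * β / 2 : ℂ) * Complex.log (1 + Complex.I * (u : ℂ) / 2)) * K ((u : ℂ) - Complex.I)) ≠ 0 →
        0 < ∫ ω, ‖J K m β ω‖ ^ (β / m) ∂law) ∧
      Tendsto (fun T : ℝ => (δ T) ^ (β ^ 2 / 4) / T * ∫ t in Set.Icc 0 T, ‖M K m (δ T) t‖ ^ (β / m)) atTop
        (𝓝 (ak (β / 2) * 2 ^ (-(β ^ 2 / 4)) * ∫ ω, ‖J K m β ω‖ ^ (β / m) ∂law))) ∧
    (∃ A C : ℝ, Kernel gauss A C ∧ 1 + 5 / 8 * (m : ℝ) < A ∧ (m : ℝ) < β * A) ∧
    0 < ∫ ω, ‖J gauss m β ω‖ ^ (β / m) ∂law ∧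
    Tendsto (fun T : ℝ => (δ T) ^ (β ^ 2 / 4) / T * ∫ t in Set.Icc 0 T, ‖M gauss m (δ T) t‖ ^ (β / m)) atTop
      (𝓝 (ak (β / 2) * 2 ^ (-(β ^ 2 / 4)) * ∫ ω, ‖J gauss m β ω‖ ^ (β / m) ∂law)) := by
  have hm' : (1:ℝ) ≤ m := by exact_mod_cast hm
  have hm0 : (0:ℝ) < m := by linarith
  have hmq : (m:ℝ) * (β / m) = β := by field_simp
  have e4 : (β / 2) ^ 2 = β ^ 2 / 4 := by ring
  have hg : ∀ᵐ ω ∂law, ∀ u, Summable (term ω u) := by
    have h1 : ∀ᵐ ω ∂law, ∀ r : ℕ, Pool.Agent.V11128.CXL.Gd (r:ℝ) ω :=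
      ae_all_iff.2 fun r => Pool.Agent.V11128.CXL.gd_ae (r:ℝ)
    filter_upwards [h1] with ω k1 u
    obtain ⟨r, hr⟩ := exists_nat_ge |u|
    exact Pool.Agent.V11128.CXL.ser_summable (k1 r) (abs_le.1 hr)
  have hcz : ∀ K : ℂ → ℂ, (∫ u : ℝ, Complex.exp (-(m * β / 2 : ℂ) * Complex.log (1 + Complex.I * (u : ℂ) / 2)) *
      K ((u : ℂ) - Complex.I)) = ∫ u, Pool.Agent.H43.RM.cz (Pool.Agent.H43.RM.wk K) m β u := by
    intro K
    refine integral_congr_ae (Eventually.of_forall fun u => ?_)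
    simp only
    unfold Pool.Agent.H43.RM.cz Pool.Agent.H43.RM.wk Pool.Agent.V11128.CXL.el
    congr 2
    ring
  have main : ∀ (K : ℂ → ℂ) (A C : ℝ), Kernel K A C → 1 + 5 / 8 * (m : ℝ) < A → (m : ℝ) < β * A →
      (∀ᶠ T in atTop, ∀ t : ℝ, Integrable (fun u : ℝ => F K m (δ T) t u)) ∧
      (∀ᵐ ω ∂law, Integrable (fun u : ℝ => Complex.exp (G β ω u) ^ m * K ((u : ℂ) - Complex.I))) ∧
      Integrable (fun ω => ‖J K m β ω‖ ^ (β / m)) law ∧
      ((∫ u : ℝ, Complex.exp (-(m * β / 2 : ℂ) * Complex.log (1 + Complex.I * (u : ℂ) / 2)) * K ((u : ℂ) - Complex.I)) ≠ 0 →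
        0 < ∫ ω, ‖J K m β ω‖ ^ (β / m) ∂law) ∧
      Tendsto (fun T : ℝ => (δ T) ^ (β ^ 2 / 4) / T * ∫ t in Set.Icc 0 T, ‖M K m (δ T) t‖ ^ (β / m)) atTop
        (𝓝 (ak (β / 2) * 2 ^ (-(β ^ 2 / 4)) * ∫ ω, ‖J K m β ω‖ ^ (β / m) ∂law)) := by
    intro K A C hK hA hAm
    have hA0 : 0 < A := by linarith
    have hK2 : Pool.Agent.H43.RM.Ker K A (|C| + 1) := by
      refine ⟨hK.cont, hK.diff, fun z hz => (hK.bound z hz).trans ?_⟩
      refine mul_le_mul_of_nonneg_right ?_ (by positivity)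
      linarith [le_abs_self C]
    obtain ⟨s0, s1, s2, s3, s4⟩ := Pool.Agent.H43.RM.local_moment hm hβ hβ4 hmq hδ hδL hK2 (by positivity) hA hAm
    rw [e4] at s4
    refine ⟨s0, s1, s2, fun hne => s3 ?_, ?_⟩
    · rw [← hcz]
      exact hne
    · have s5 := s4.const_mul ((2 ^ (β ^ 2 / 4))⁻¹ : ℝ)
      have e : ak (β / 2) * 2 ^ (-(β ^ 2 / 4)) * ∫ ω, ‖J K m β ω‖ ^ (β / m) ∂law =
          (2 ^ (β ^ 2 / 4))⁻¹ * (Pool.Agent.H306R2.aF (β / 2) * ∫ ω, ‖Pool.Agent.H43.RM.Jf (Pool.Agent.H43.RM.wk K) m β ω‖ ^ (β / m)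
            ∂Pool.Agent.V11128.CXL.PP) := by
        rw [Real.rpow_neg (by norm_num : (0:ℝ) ≤ 2), mul_comm (ak (β / 2)), mul_assoc]
        rfl
      rw [e]
      refine s5.congr' ?_
      filter_upwards [Pool.Agent.Y753.SHR.pos_path hδL] with T k1
      rw [Real.mul_rpow (by norm_num) k1.le]
      have : (0:ℝ) < 2 ^ (β ^ 2 / 4) := by positivity
      have e2 : ∀ t, ‖M K m (δ T) t‖ = ‖∫ u : ℝ, Pool.Agent.H43.RM.Fz K m (δ T) t u‖ := fun _ => rfl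
      simp_rw [e2]
      field_simp
  obtain ⟨C, hC, hK⟩ := Pool.Agent.H43.RM.ga_ker (2 + m + m / β) (by positivity)
  have hGK : Kernel gauss (2 + m + m / β) C := ⟨hK.cont, hK.diff, hK.bd⟩
  have hA1 : 1 + 5 / 8 * (m:ℝ) < 2 + m + m / β := by
    have : 0 < m / β := by positivity
    linarith
  have hA2 : (m:ℝ) < β * (2 + m + m / β) := by
    have : β * (2 + m + m / β) = β * (2 + m) + m := by field_simp
    rw [this]
    have : 0 < β * (2 + m) := by positivity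
    linarith
  obtain ⟨g1, g2, g3, g4, g5⟩ := main gauss _ _ hGK hA1 hA2
  refine ⟨Pool.Agent.H306R2.aF_pos (by positivity), hg, main, ⟨_, _, hGK, hA1, hA2⟩, g4 ?_, g5⟩
  rw [hcz]
  exact Pool.Agent.H43.RM.ga_ne hm hβ

end Pool.Agent.Results.MP_973905_nt.LocalAverages
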