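import Pool.Agent.H43.RM.Final

/-!
# Real moments of short smoothed Dirichlet polynomials approximating powers of ζ

Let `m ≥ 1` be an integer, `ν ≥ m` real and let `x = x(T) → ∞` with `log x / log T → 0`. For the Riesz means

`R(t) = ∑_{n ≤ x} d_m(n) (1 - log n / log x)^ν n^(-1/2-it)`

of the Dirichlet series of `ζ(s)^m` on the critical line and for all real `0 < β ≤ 4` with `m < β(ν + 1)`,

`(1/T) ∫_0^T |R(t)|^(β/m) dt ~ a(β/2) 2^(-β²/4) E |∫ e^(m G(u)) w(u) du|^(β/m) (log x)^(β²/4)`,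

where `w(u) = (Γ(ν+1)/2π) e^(1+iu)/(1+iu)^(ν+1)` and `G` is the Gaussian process
`G(u) = -(β/2) log (1 + iu/2) + ∑_{k ≥ 1} ξ_k p(u)^k / √k`, `p(u) = (iu/2)/(1 + iu/2)`, with independent
standard complex normal variables `ξ_k`. The constant is positive.

Proof. The contour integral of `R` is moved from `Re s = 3/2` to `Re s = 1/2 + δ`, `δ = 1/log x`, where it is
the integral of `ζ(1/2 + δ + i(t + uδ))^m w(u)` (`riesz_near`). For the integral over `|u| ≤ R` the functional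
form of the moments of ζ applies (`lim_R`). The tail is estimated by the means of the `β`-th powers of local
sizes of ζ over windows of length `δ` (`diff_mean`); this needs `(ν + 1) min(1, β/m) > 1`. Positivity: the
submean inequality for `z ↦ |∫ e^(m(-(β/2) log (1 + iu/2) + z S(u))) w(u) du|^(β/m)`, the rotation invariance of the
random series `S` and the value `∫_0^∞ t^(s-1) e^(-t/2) (1 - t/2)_+^ν dt / Γ(s)`, `s = mβ/2`, at `z = 0` (`lower`,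
`cz_value`).
-/

set_option autoImplicit false

namespace Pool.Agent.Results.MP_973905_nt.RieszMeans

open Filter MeasureTheory Topology ProbabilityTheory

/-- The coefficient `s (s + 1) ⋯ (s + m - 1) / m!` of `x^m` in `(1 - x)^(-s)`. -/
noncomputable def ds (s : ℝ) (m : ℕ) : ℝ := ∏ i ∈ Finset.range m, (s + i) / ((i : ℝ) + 1)

/-- The arithmetic factor `a(s) = ∏_p (1 - 1/p)^(s²) ∑_m ds(m)² p^(-m)`. -/
noncomputable def ak (s : ℝ) : ℝ :=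
  ∏' p : Nat.Primes, ((1 - 1 / (p : ℝ)) ^ (s ^ 2) * ∑' m : ℕ, ds s m ^ 2 * (1 / (p : ℝ)) ^ m)

/-- The coefficients `d_m(n)` of the Dirichlet series of `ζ(s)^m`. -/
noncomputable def d (m n : ℕ) : ℕ := (ArithmeticFunction.zeta ^ m : ArithmeticFunction ℕ) n

/-- The Riesz mean `∑_{n ≤ x} d_m(n) (1 - log n / log x)^ν n^(-1/2-it)`. -/
noncomputable def R (m : ℕ) (ν x t : ℝ) : ℂ :=
  ∑ n ∈ Finset.Icc 1 ⌊x⌋₊, (d m n : ℂ) * (((1 - Real.log n / Real.log x) ^ ν : ℝ) : ℂ) *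
    (n : ℂ) ^ (-(1 / 2 + (t : ℂ) * Complex.I))

/-- The weight `w(u) = (Γ(ν+1)/2π) e^(1+iu)/(1+iu)^(ν+1)`. -/
noncomputable def w (ν u : ℝ) : ℂ :=
  Complex.exp ((1 : ℝ) + (u : ℂ) * Complex.I) *
    ((Real.Gamma (ν + 1) : ℂ) / (2 * Real.pi * ((1 : ℝ) + (u : ℂ) * Complex.I) ^ ((ν : ℂ) + 1)))

/-- The law of a sequence of independent standard normal vectors of `ℝ²`. -/
noncomputable def law : Measure (ℕ → ℝ × ℝ) :=
  Measure.infinitePi fun _ : ℕ => (gaussianReal 0 1).prod (gaussianReal 0 1)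

/-- The standard complex normal variables `(x + iy)/√2`. -/
noncomputable def xi (k : ℕ) (ω : ℕ → ℝ × ℝ) : ℂ :=
  (((ω k).1 : ℂ) + ((ω k).2 : ℂ) * Complex.I) / (√2 : ℝ)

/-- `p(u) = (iu/2)/(1 + iu/2)`. -/
noncomputable def p (u : ℝ) : ℂ := (Complex.I * (u : ℂ) / 2) / (1 + Complex.I * (u : ℂ) / 2)

/-- The terms of the random series. -/
noncomputable def term (ω : ℕ → ℝ × ℝ) (u : ℝ) (k : ℕ) : ℂ :=
  xi k ω * (p u ^ (k + 1) / (√((k : ℝ) + 1) : ℝ))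

/-- The process `G(u) = -(β/2) log (1 + iu/2) + ∑_{k ≥ 1} ξ_k p(u)^k / √k`. -/
noncomputable def G (β : ℝ) (ω : ℕ → ℝ × ℝ) (u : ℝ) : ℂ :=
  -(β / 2 : ℂ) * Complex.log (1 + Complex.I * (u : ℂ) / 2) + ∑' k, term ω u k

/-- The limit functional `∫ e^(m G(u)) w(u) du`. -/
noncomputable def J (m : ℕ) (ν β : ℝ) (ω : ℕ → ℝ × ℝ) : ℂ := ∫ u : ℝ, Complex.exp (G β ω u) ^ m * w ν u

/-- Let `m ≥ 1` be an integer, `ν ≥ m` and `0 < β ≤ 4` real with `m < β(ν + 1)`, and let `x(T) → ∞` with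
`log x(T) / log T → 0`. Then `a(β/2) > 0`, almost surely the series of `G` converges everywhere and
`e^(m G) w` is integrable on the line, `E |J|^(β/m)` is finite and positive, and
`(log x)^(-β²/4) (1/T) ∫_0^T |R(t)|^(β/m) dt → a(β/2) 2^(-β²/4) E |J|^(β/m)`. -/
theorem result (m : ℕ) (hm : 1 ≤ m) (ν : ℝ) (hν : (m : ℝ) ≤ ν) (β : ℝ) (hβ : 0 < β) (hβ4 : β ≤ 4)
    (hmν : (m : ℝ) < β * (ν + 1)) (x : ℝ → ℝ) (hx : Tendsto x atTop atTop)
    (hxT : Tendsto (fun T => Real.log (x T) / Real.log T) atTop (𝓝 0)) :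
    0 < ak (β / 2) ∧
    (∀ᵐ ω ∂law, (∀ u, Summable (term ω u)) ∧ Integrable (fun u : ℝ => Complex.exp (G β ω u) ^ m * w ν u)) ∧
    Integrable (fun ω => ‖J m ν β ω‖ ^ (β / m)) law ∧
    0 < ∫ ω, ‖J m ν β ω‖ ^ (β / m) ∂law ∧
    Tendsto (fun T : ℝ => (Real.log (x T)) ^ (-(β ^ 2 / 4)) / T * ∫ t in Set.Icc 0 T, ‖R m ν (x T) t‖ ^ (β / m)) atTop
      (𝓝 (ak (β / 2) * 2 ^ (-(β ^ 2 / 4)) * ∫ ω, ‖J m ν β ω‖ ^ (β / m) ∂law)) := by
  have hm' : (1:ℝ) ≤ m := by exact_mod_cast hm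
  have hm0 : (0:ℝ) < m := by linarith
  have hmq : (m:ℝ) * (β / m) = β := by field_simp
  obtain ⟨s1, s2, s3, s4⟩ := Pool.Agent.H43.RM.riesz_moment hm hν hβ hβ4 hmq hmν hx hxT
  have e4 : (β / 2) ^ 2 = β ^ 2 / 4 := by ring
  rw [e4] at s4
  have hg : ∀ᵐ ω ∂law, ∀ u, Summable (term ω u) := by
    have h1 : ∀ᵐ ω ∂law, ∀ r : ℕ, Pool.Agent.V11128.CXL.Gd (r:ℝ) ω :=
      ae_all_iff.2 fun r => Pool.Agent.V11128.CXL.gd_ae (r:ℝ)
    filter_upwards [h1] with ω k1 u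
    obtain ⟨r, hr⟩ := exists_nat_ge |u|
    exact Pool.Agent.V11128.CXL.ser_summable (k1 r) (abs_le.1 hr)
  refine ⟨Pool.Agent.H306R2.aF_pos (by positivity), ?_, s2, s3, ?_⟩
  · filter_upwards [hg, s1] with ω k1 k2
    exact ⟨k1, k2⟩
  · have e : ak (β / 2) * 2 ^ (-(β ^ 2 / 4)) * ∫ ω, ‖J m ν β ω‖ ^ (β / m) ∂law =
        Pool.Agent.H306R2.aF (β / 2) / 2 ^ (β ^ 2 / 4) * ∫ ω, ‖Pool.Agent.H43.RM.Jf (Pool.Agent.H43.RM.wr ν) m β ω‖ ^ (β / m)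
          ∂Pool.Agent.V11128.CXL.PP := by
      rw [Real.rpow_neg (by norm_num : (0:ℝ) ≤ 2), ← div_eq_mul_inv]
      rfl
    rw [e]
    exact s4

end Pool.Agent.Results.MP_973905_nt.RieszMeans
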